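import Pool.Agent.T2h78.AP.Zra

set_option autoImplicit false

open MvPolynomial

namespace Pool.Agent.T2h78.AP

open Pool.Agent.T2h19.AP

theorem totalDegree_q {ι : Type} [Fintype ι] [DecidableEq ι] {K : Cells ι} (hN : K.Nbr) :
    0 < (K.q K.γ).totalDegree := by
  by_contra h
  have h0 : (K.q K.γ).totalDegree = 0 := by omega
  rw [totalDegree_eq_zero_iff_eq_C] at h0
  have hp : Prime (K.q K.γ) := hN.prime
  apply hp.not_isUnit
  rw [h0]
  have hc : coeff 0 (K.q K.γ) ≠ 0 := by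
    intro hc
    rw [hc, C_0] at h0
    exact hp.ne_zero h0
  exact (isUnit_iff_ne_zero.2 hc).map C

theorem sec_aux (h4 : S_DIV) {ι : Type} [Fintype ι] [DecidableEq ι] (K : Cells ι) (hK : K.Cov)
    (hN : K.Nbr) (f : MvPolynomial (Fin 6) ℂ) (n : ℕ) :
    ∀ (d : ℤ) (s : (ι → ℂ) → ℂ) (g : ((ι → ℂ) ≃ₗ[ℂ] (ι → ℂ)) → MvPolynomial (Fin 6) ℂ),
      K.Reg d s g → g K.γ ≠ 0 → (g K.γ).totalDegree ≤ n → (∀ u, s (K.pt u) = eval u f) →
      ∃ (d : ℤ) (s : (ι → ℂ) → ℂ)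
        (g : ((ι → ℂ) ≃ₗ[ℂ] (ι → ℂ)) → MvPolynomial (Fin 6) ℂ),
        K.Reg d s g ∧ ¬ K.q K.γ ∣ g K.γ ∧ ∀ u, s (K.pt u) = eval u f := by
  induction n with
  | zero =>
    intro d s g hR hg hn hs
    refine ⟨d, s, g, hR, ?_, hs⟩
    rintro ⟨c, hc⟩
    have hc0 : c ≠ 0 := by
      intro h; rw [h, mul_zero] at hc; exact hg hc
    have hq0 : K.q K.γ ≠ 0 := (show Prime (K.q K.γ) from hN.prime).ne_zero
    rw [hc, totalDegree_mul_of_isDomain hq0 hc0] at hn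
    have := totalDegree_q hN
    omega
  | succ n ih =>
    intro d s g hR hg hn hs
    by_cases hd : K.q K.γ ∣ g K.γ
    · obtain ⟨s', g', hR', hg', hs'⟩ := h4 ι K hK hN d s g hR hd
      have hγ := hg' K.γ hN.γ_mem
      have hc0 : g' K.γ ≠ 0 := by
        intro h; rw [h, mul_zero] at hγ; exact hg hγ
      have hq0 : K.q K.γ ≠ 0 := (show Prime (K.q K.γ) from hN.prime).ne_zero
      refine ih (d - 1) s' g' hR' hc0 ?_ ?_
      · rw [hγ, totalDegree_mul_of_isDomain hq0 hc0] at hn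
        have := totalDegree_q hN
        omega
      · intro u
        rw [← hs u, hs' _ (Cells.pt_mem hK u) (Cells.pt_ne hK u), Cells.L_zero_pt hK, one_mul]
    · exact ⟨d, s, g, hR, hd, hs⟩

theorem sec_ (h1 : S_HOM) (h2 : S_DEN) (h3 : S_FRM) (h4 : S_DIV) : S_SEC := by
  intro ι _ _ K hK hN f hf
  obtain ⟨M₀, hM₀⟩ := homcell h1 K (LinearEquiv.refl ℂ (ι → ℂ)) f
  obtain ⟨G, hGh, hG⟩ := hM₀ M₀ le_rfl
  have hGu : ∀ u, eval (K.pt u) G = eval u f := by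
    intro u
    have h5 : (LinearEquiv.refl ℂ (ι → ℂ)).symm (K.pt u) = K.pt u := rfl
    have h6 := hG (K.pt u) (by rw [h5, Cells.L_zero_pt hK]; exact one_ne_zero)
    rw [h6, h5, Cells.L_zero_pt hK, one_pow, one_mul]
    congr 2
    funext j
    rw [Cells.L_succ_pt hK, div_one]
  have hR := h3 ι K G M₀ hGh
  refine sec_aux h4 K hK hN f _ _ _ _ hR ?_ le_rfl hGu
  intro h0
  apply hf
  have h7 : ∀ (t : ℂ) (u : Fin 6 → ℂ), eval (t • K.pt u) (subst K.γ.toLinearMap G) = 0 := by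
    intro t u
    rw [eval_smul_hom (subst_hom _ hGh)]
    have h8 := eval_pull K.φ (subst K.γ.toLinearMap G) u
    rw [h0, map_zero] at h8
    have h9 : eval (K.pt u) (subst K.γ.toLinearMap G) = 0 := h8.symm
    rw [h9, mul_zero]
  have h10 := h2 ι K hK _ h7
  apply MvPolynomial.funext
  intro u
  rw [map_zero, ← hGu u]
  have h11 : K.γ (K.pt u) ∈ K.C := (hK.mem_iff K.γ hN.γ_mem _).2 (Cells.pt_mem hK u)
  have h12 := h10 _ h11
  rw [eval_subst] at h12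
  have h13 : K.γ.toLinearMap (K.γ (K.pt u)) = K.pt u := hN.γγ _
  rw [h13] at h12
  exact h12

end Pool.Agent.T2h78.AP
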