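import Pool.Agent.T2h78.AP.Com

set_option autoImplicit false

open MvPolynomial

namespace Pool.Agent.T2h78.AP

open Pool.Agent.T2h19.AP

section

variable {ι : Type} [Fintype ι]

/-- the polynomial `F(z + s v)` in `s` -/
noncomputable def ln (z v : ι → ℂ) (F : MvPolynomial ι ℂ) : Polynomial ℂ :=
  aeval (fun i => Polynomial.C (z i) + Polynomial.C (v i) * Polynomial.X) F

omit [Fintype ι] in
theorem ln_eval (z v : ι → ℂ) (F : MvPolynomial ι ℂ) (s : ℂ) :
    (ln z v F).eval s = eval (z + s • v) F := by
  unfold ln
  rw [aeval_def, ← coe_eval₂Hom, ← Polynomial.coe_evalRingHom, ← RingHom.comp_apply]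
  have : (Polynomial.evalRingHom s).comp (eval₂Hom (algebraMap ℂ (Polynomial ℂ))
      (fun i => Polynomial.C (z i) + Polynomial.C (v i) * Polynomial.X)) =
      (eval (z + s • v)) := by
    apply MvPolynomial.ringHom_ext
    · intro r
      simp
    · intro i
      simp
      ring
  rw [this]

theorem ln_deriv (z v : ι → ℂ) (F : MvPolynomial ι ℂ) :
    (Polynomial.derivative (ln z v F)).eval 0 = ∑ i, eval z (pderiv i F) * v i := by
  classical
  induction F using MvPolynomial.induction_on with
  | C a => simp [ln]
  | add p q hp hq =>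
    have e : ln z v (p + q) = ln z v p + ln z v q := by simp [ln]
    rw [e, Polynomial.derivative_add, Polynomial.eval_add, hp, hq, ← Finset.sum_add_distrib]
    refine Finset.sum_congr rfl fun i _ => ?_
    rw [map_add, map_add, add_mul]
  | mul_X p n hp =>
    have e : ln z v (p * X n) = ln z v p *
        (Polynomial.C (z n) + Polynomial.C (v n) * Polynomial.X) := by simp [ln]
    have e0 : (ln z v p).eval 0 = eval z p := by rw [ln_eval]; simp
    rw [e, Polynomial.derivative_mul, Polynomial.eval_add, Polynomial.eval_mul,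
      Polynomial.eval_mul, hp, e0]
    have h1 : ∀ i, eval z (pderiv i (p * X n)) * v i =
        eval z (pderiv i p) * v i * z n + eval z p * (if i = n then v i else 0) := by
      intro i
      rw [Derivation.leibniz, map_add, smul_eq_mul, smul_eq_mul, map_mul, map_mul, eval_X,
        pderiv_X]
      by_cases h : i = n
      · subst h
        simp
        ring
      · rw [Pi.single_eq_of_ne (Ne.symm h)]
        simp [h]
        ring
    simp only [h1]
    rw [Finset.sum_add_distrib, ← Finset.sum_mul, ← Finset.mul_sum]
    simp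

end

theorem tal_ (h1 : S_HOM) : S_TAL := by
  intro ι _ _ K hK t ht u v hv hL
  ext i
  obtain ⟨M₀, hM₀⟩ := h1 ι (K.φ i)
  set M := M₀ + 1 with hM
  obtain ⟨H, hH, -⟩ := hM₀ M (by omega) (form (K.L 0)) (fun j => form (K.L j.succ))
  simp only [eval_form] at hH
  set E : MvPolynomial ι ℂ := form (K.L 0) ^ M * X i - form (K.L 0) * H with hE
  have hEC : E ∈ ideal K.C := by
    intro z hz
    rw [hE, map_sub, map_mul, map_mul, map_pow, eval_X, eval_form]
    by_cases h0 : K.L 0 z = 0
    · rw [h0, hM, pow_succ]; ring
    · have h2 := hH z h0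
      have h3 := Cells.eq_smul hK hz h0
      have h4 : z i = K.L 0 z * eval (fun j => K.L j.succ z / K.L 0 z) (K.φ i) := by
        conv_lhs => rw [h3]
        rfl
      rw [h2]
      rw [h4]
      ring
  have hd := hv E hEC
  rw [← ln_deriv] at hd
  -- the values of the forms along the line
  have hLs : ∀ (s : ℂ) (j : Fin 7), K.L j (t • K.pt u + s • v) = K.L j (t • K.pt u) := by
    intro s j
    rw [map_add, LinearMap.map_smul (K.L j) s v, hL j, smul_zero, add_zero]
  have hL0 : K.L 0 (t • K.pt u) = t := Cells.L_zero_smul hK t u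
  have hln : ln (t • K.pt u) v E =
      Polynomial.C (t ^ M * (t • K.pt u) i - t * eval (t • K.pt u) H) +
      Polynomial.C (t ^ M * v i) * Polynomial.X := by
    apply Polynomial.funext
    intro s
    rw [ln_eval, hE, map_sub, map_mul, map_mul, map_pow, eval_X, eval_form, hLs, hL0]
    have h5 : eval (t • K.pt u + s • v) H = eval (t • K.pt u) H := by
      rw [hH _ (by rw [hLs, hL0]; exact ht), hH _ (by rw [hL0]; exact ht)]
      simp only [hLs]
    rw [h5]
    simp only [Pi.add_apply, Pi.smul_apply, smul_eq_mul, Polynomial.eval_add, Polynomial.eval_mul,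
      Polynomial.eval_C, Polynomial.eval_X]
    ring
  rw [hln] at hd
  simp only [Polynomial.derivative_add, Polynomial.derivative_C, Polynomial.derivative_mul,
    Polynomial.derivative_X, Polynomial.eval_add, Polynomial.eval_mul, Polynomial.eval_C,
    Polynomial.eval_zero, Polynomial.eval_one, Polynomial.eval_X] at hd
  have h6 : t ^ M * v i = 0 := by simpa using hd
  rcases mul_eq_zero.1 h6 with h7 | h7
  · exact absurd h7 (pow_ne_zero _ ht)
  · exact h7

end Pool.Agent.T2h78.AP
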