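import Pool.Agent.T2h78.AP.Com

set_option autoImplicit false
set_option maxRecDepth 4000

open MvPolynomial

namespace Pool.Agent.T2h78.AP

open Pool.Agent.T2h19.AP

section

variable {ι : Type} [Fintype ι] [DecidableEq ι]

theorem l_apply (l : (ι → ℂ) →ₗ[ℂ] ℂ) (z : ι → ℂ) : l z = ∑ k, l (Pi.single k 1) * z k := by
  rw [← eval_form l z]
  unfold form
  rw [map_sum]
  refine Finset.sum_congr rfl fun k _ => ?_
  rw [map_mul, eval_C, eval_X]

/-- the entries of the frame as polynomials -/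
noncomputable def fp (φ : ι → MvPolynomial (Fin 6) ℂ) (l : (ι → ℂ) →ₗ[ℂ] ℂ) (i : Fin 7) :
    MvPolynomial (Fin 6) ℂ :=
  Fin.cases (pull φ (form l)) (fun a => ∑ k, C (l (Pi.single k 1)) * pderiv a (φ k)) i

theorem eval_fp (φ : ι → MvPolynomial (Fin 6) ℂ) (l : (ι → ℂ) →ₗ[ℂ] ℂ) (u : Fin 6 → ℂ)
    (i : Fin 7) : eval u (fp φ l i) = l (frame φ u i) := by
  refine Fin.cases ?_ (fun a => ?_) i
  · show eval u (pull φ (form l)) = l (ev φ u)
    rw [eval_pull, eval_form]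
  · show eval u (∑ k, C (l (Pi.single k 1)) * pderiv a (φ k)) = l (dev φ a u)
    rw [l_apply l (dev φ a u), map_sum]
    refine Finset.sum_congr rfl fun k _ => ?_
    rw [map_mul, eval_C]
    rfl

theorem omega_poly (φ : ι → MvPolynomial (Fin 6) ℂ) (L : Fin 7 → ((ι → ℂ) →ₗ[ℂ] ℂ))
    (w : (ι → ℂ) →ₗ[ℂ] (ι → ℂ)) :
    ∃ J : MvPolynomial (Fin 6) ℂ, ∀ u, eval u J = omega L (fun i => w (frame φ u i)) := by
  refine ⟨Matrix.det (Matrix.of fun i j => fp φ (L j ∘ₗ w) i), fun u => ?_⟩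
  rw [omega_apply, RingHom.map_det]
  congr 1
  ext i j
  simp only [RingHom.mapMatrix_apply, Matrix.map_apply, Matrix.of_apply]
  rw [eval_fp]
  rfl

/-- the form `omega ∘ w⁻¹` -/
noncomputable def omw (K : Cells ι) (w : (ι → ℂ) ≃ₗ[ℂ] (ι → ℂ)) :
    (ι → ℂ) [⋀^Fin 7]→ₗ[ℂ] ℂ := (omega K.L).compLinearMap w.symm.toLinearMap

omit [Fintype ι] [DecidableEq ι] in
theorem omw_apply (K : Cells ι) (w : (ι → ℂ) ≃ₗ[ℂ] (ι → ℂ)) (v : Fin 7 → ι → ℂ) :
    omw K w v = omega K.L (fun i => w.symm (v i)) := by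
  unfold omw
  simp only [AlternatingMap.compLinearMap_apply, LinearEquiv.coe_coe]

omit [Fintype ι] [DecidableEq ι] in
theorem omw_frame (K : Cells ι) (w : (ι → ℂ) ≃ₗ[ℂ] (ι → ℂ)) (b : Fin 7 → ι → ℂ) :
    omw K w (fun i => w (b i)) = omega K.L b := by
  rw [omw_apply]
  simp only [LinearEquiv.symm_apply_apply]

omit [Fintype ι] [DecidableEq ι] in
theorem alt_smul (f : (ι → ℂ) [⋀^Fin 7]→ₗ[ℂ] ℂ) (t : ℂ) (v : Fin 7 → ι → ℂ) :
    f (fun i => t • v i) = t ^ 7 * f v := by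
  rw [AlternatingMap.map_smul_univ]
  simp only [Finset.prod_const, Finset.card_univ, Fintype.card_fin, smul_eq_mul]

theorem alt_expand (f : (ι → ℂ) [⋀^Fin 7]→ₗ[ℂ] ℂ) (v : Fin 7 → ι → ℂ) :
    f v = ∑ σ : Fin 7 → ι, f (fun i => Pi.single (σ i) 1) * ∏ i, v i (σ i) := by
  have h6 : v = fun i => ∑ k : ι, (v i k) • (Pi.single k (1 : ℂ) : ι → ℂ) := by
    funext i
    ext j
    simp [Finset.sum_apply, Pi.single_apply]
  have h8 := f.toMultilinearMap.map_sum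
    (fun (i : Fin 7) (k : ι) => (v i k) • (Pi.single k (1 : ℂ) : ι → ℂ))
  rw [← h6] at h8
  have h10 : f v = f.toMultilinearMap v := rfl
  rw [h10, h8]
  refine Finset.sum_congr rfl fun σ _ => ?_
  have h9 := f.toMultilinearMap.map_smul_univ (fun i => v i (σ i))
    (fun i => (Pi.single (σ i) (1 : ℂ) : ι → ℂ))
  rw [h9, smul_eq_mul, mul_comm]
  rfl

/-- the forms `L_0 ∘ w⁻¹` do not vanish on the cell of `w₁` -/
theorem rho_ne (h1 : S_VAR) {K : Cells ι} (hK : K.Cov) {w w₁ : (ι → ℂ) ≃ₗ[ℂ] (ι → ℂ)}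
    (hw : w ∈ K.W) (hw₁ : w₁ ∈ K.W) : ∃ u, K.L 0 (w.symm (w₁ (K.pt u))) ≠ 0 := by
  by_contra hc
  push Not at hc
  have hprime := (h1 ι K hK).1.prime
  have hmem : form (K.L 0 ∘ₗ w₁.symm.toLinearMap) * form (K.L 0 ∘ₗ w.symm.toLinearMap) ∈
      ideal K.C := by
    intro z hz
    rw [map_mul, eval_form, eval_form]
    show K.L 0 (w₁.symm z) * K.L 0 (w.symm z) = 0
    by_cases h0 : K.L 0 (w₁.symm z) = 0
    · rw [h0, zero_mul]
    · have h2 := Cells.eq_smul hK (Cells.symm_mem hK hw₁ hz) h0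
      have h3 : z = w₁ (K.L 0 (w₁.symm z) •
          K.pt (fun j : Fin 6 => K.L j.succ (w₁.symm z) / K.L 0 (w₁.symm z))) := by
        rw [← h2, LinearEquiv.apply_symm_apply]
      have h4 : K.L 0 (w.symm z) = 0 := by
        rw [h3, map_smul, map_smul, map_smul, hc, smul_zero]
      rw [h4, mul_zero]
  rcases hprime.mem_or_mem hmem with h | h
  · have h2 := h (w₁ (K.pt 0)) ((hK.mem_iff w₁ hw₁ _).2 (Cells.pt_mem hK 0))
    rw [eval_form] at h2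
    have h3 : K.L 0 (w₁.symm (w₁ (K.pt 0))) = 0 := h2
    rw [LinearEquiv.symm_apply_apply, Cells.L_zero_pt hK] at h3
    exact one_ne_zero h3
  · have h2 := h (w (K.pt 0)) ((hK.mem_iff w hw _).2 (Cells.pt_mem hK 0))
    rw [eval_form] at h2
    have h3 : K.L 0 (w.symm (w (K.pt 0))) = 0 := h2
    rw [LinearEquiv.symm_apply_apply, Cells.L_zero_pt hK] at h3
    exact one_ne_zero h3

/-- the identity of polynomials -/
theorem ident (h1 : S_VAR) (h2 : S_OMF) (h3 : S_ALT) (h4 : S_TAN) {K : Cells ι} (hK : K.Cov)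
    {c : ((ι → ℂ) ≃ₗ[ℂ] (ι → ℂ)) → ℂ}
    (hc : ∀ w ∈ K.W, c w ≠ 0 ∧
      ∀ u, omega K.L (fun i => w (frame K.φ u i)) = c w * K.L 0 (w (K.pt u)) ^ 4)
    {w w₁ : (ι → ℂ) ≃ₗ[ℂ] (ι → ℂ)} (hw : w ∈ K.W) (hw₁ : w₁ ∈ K.W) (u : Fin 6 → ℂ) :
    c w * omega K.L (fun i => w.symm (w₁ (frame K.φ u i))) =
      c w₁ * K.L 0 (w.symm (w₁ (K.pt u))) ^ 4 := by
  obtain ⟨J, hJ0⟩ := omega_poly K.φ K.L (w.symm.toLinearMap ∘ₗ w₁.toLinearMap)
  have hJ : ∀ u, eval u J = omega K.L (fun i => w.symm (w₁ (frame K.φ u i))) := by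
    intro u
    rw [hJ0]
    simp only [LinearMap.comp_apply, LinearEquiv.coe_coe]
  set ρ : MvPolynomial (Fin 6) ℂ :=
    pull K.φ (form (K.L 0 ∘ₗ (w.symm.toLinearMap ∘ₗ w₁.toLinearMap))) with hρ
  have hρe : ∀ u, eval u ρ = K.L 0 (w.symm (w₁ (K.pt u))) := by
    intro u
    rw [hρ, eval_pull, eval_form]
    rfl
  have hρ0 : ρ ≠ 0 := by
    intro h
    obtain ⟨u, hu⟩ := rho_ne h1 hK hw hw₁
    rw [← hρe, h, map_zero] at hu
    exact hu rfl
  have hid : (K.q w₁ * ρ) * (C (c w) * J) = (K.q w₁ * ρ) * (C (c w₁) * ρ ^ 4) := by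
    apply MvPolynomial.funext
    intro u
    simp only [map_mul, map_pow, eval_C]
    rw [hρe, hJ, Cells.eval_q]
    by_cases hq : K.L 0 (w₁ (K.pt u)) = 0
    · rw [hq]; ring
    by_cases hr : K.L 0 (w.symm (w₁ (K.pt u))) = 0
    · rw [hr]; ring
    congr 1
    have hz : w₁ (K.pt u) ∈ K.C := (hK.mem_iff w₁ hw₁ _).2 (Cells.pt_mem hK u)
    obtain ⟨r, u₂, hr', hru⟩ : ∃ (r : ℂ) (u₂ : Fin 6 → ℂ), r = K.L 0 (w.symm (w₁ (K.pt u))) ∧
        w.symm (w₁ (K.pt u)) = r • K.pt u₂ :=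
      ⟨_, _, rfl, Cells.eq_smul hK (Cells.symm_mem hK hw hz) hr⟩
    rw [← hr'] at hr ⊢
    have hz2 : w₁ (K.pt u) = w (r • K.pt u₂) := by
      rw [← hru, LinearEquiv.apply_symm_apply]
    have ht1 := h4 ι K hK w₁ hw₁ 1 one_ne_zero u
    have ht2 := h4 ι K hK w hw r hr u₂
    rw [one_smul, hz2, ht2] at ht1
    have h5 := h3 ι (omega K.L) (omw K w) (fun i => w (frame K.φ u₂ i))
      (c w * K.L 0 (w (K.pt u₂)) ^ 4) (by
        rw [omw_frame, (h2 ι K hK u₂).1, mul_one]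
        exact (hc w hw).2 u₂) (fun i => w₁ (frame K.φ u i)) (by
        intro i
        rw [ht1]
        exact Submodule.subset_span ⟨i, rfl⟩)
    rw [(hc w₁ hw₁).2 u, omw_apply] at h5
    have h6 : K.L 0 (w₁ (K.pt u)) = r * K.L 0 (w (K.pt u₂)) := by
      rw [hz2, map_smul, map_smul, smul_eq_mul]
    rw [h6] at h5 hq
    have h7 : K.L 0 (w (K.pt u₂)) ≠ 0 := right_ne_zero_of_mul hq
    have h8 : K.L 0 (w (K.pt u₂)) ^ 4 * (c w * omega K.L (fun i => w.symm (w₁ (frame K.φ u i)))) =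
        K.L 0 (w (K.pt u₂)) ^ 4 * (c w₁ * r ^ 4) := by
      linear_combination (-1 : ℂ) * h5
    exact mul_left_cancel₀ (pow_ne_zero 4 h7) h8
  have hne : K.q w₁ * ρ ≠ 0 := mul_ne_zero (hK.q_ne w₁ hw₁) hρ0
  have h9 := mul_left_cancel₀ hne hid
  have h10 := congrArg (eval u) h9
  simp only [map_mul, map_pow, eval_C] at h10
  rw [hρe, hJ] at h10
  exact h10

end

theorem the_ (h1 : S_VAR) (h2 : S_OMF) (h3 : S_ALT) (h4 : S_TAN) (h5 : S_JCW) : S_THE := by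
  classical
  intro ι _ _ K hK hN
  obtain ⟨c, hc⟩ : ∃ c : ((ι → ℂ) ≃ₗ[ℂ] (ι → ℂ)) → ℂ, ∀ w ∈ K.W, c w ≠ 0 ∧
      ∀ u, omega K.L (fun i => w (frame K.φ u i)) = c w * K.L 0 (w (K.pt u)) ^ 4 := by
    choose! c hc using h5 ι K hK hN
    exact ⟨c, hc⟩
  have hon := (h1 ι K hK).2
  let Q : (ι → ℂ) → ((ι → ℂ) ≃ₗ[ℂ] (ι → ℂ)) → Prop := fun z w =>
    w ∈ K.W ∧ ∃ (t : ℂ) (u : Fin 6 → ℂ), t ≠ 0 ∧ z = w (t • K.pt u)
  have hQ : ∀ z ∈ K.C, z ≠ 0 → ∃ w, Q z w := by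
    intro z hz h0
    obtain ⟨w, hw, t, u, ht, hz⟩ := hK.cover z hz h0
    exact ⟨w, hw, t, u, ht, hz⟩
  let Θ : (ι → ℂ) → ((ι → ℂ) [⋀^Fin 7]→ₗ[ℂ] ℂ) := fun z =>
    if h : ∃ w, Q z w then
      (c h.choose * (K.L 0 (h.choose.symm z) ^ 4)⁻¹) • omw K h.choose
    else 0
  -- the key property
  have key : ∀ z ∈ K.C, z ≠ 0 → ∀ w ∈ K.W, ∀ v : Fin 7 → ι → ℂ,
      (∀ i, v i ∈ tangent (ideal K.C) z) →
      K.L 0 (w.symm z) ^ 4 * Θ z v = c w * omw K w v := by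
    intro z hz h0 w hw v hv
    have hex := hQ z hz h0
    have hΘ : Θ z = (c hex.choose * (K.L 0 (hex.choose.symm z) ^ 4)⁻¹) • omw K hex.choose :=
      dif_pos hex
    obtain ⟨hw₁, t, u, ht, hzu⟩ := hex.choose_spec
    set w₁ := hex.choose with hw₁def
    rw [hΘ, AlternatingMap.smul_apply, smul_eq_mul]
    have h6 : K.L 0 (w₁.symm z) = t := by
      rw [hzu, LinearEquiv.symm_apply_apply, Cells.L_zero_smul hK]
    have h7 : K.L 0 (w.symm z) = t * K.L 0 (w.symm (w₁ (K.pt u))) := by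
      rw [hzu, map_smul, map_smul, map_smul, smul_eq_mul]
    have h8 := h3 ι (c w • omw K w) (omw K w₁) (fun i => w₁ (frame K.φ u i))
      (c w₁ * K.L 0 (w.symm (w₁ (K.pt u))) ^ 4) (by
        rw [omw_frame, (h2 ι K hK u).1, mul_one, AlternatingMap.smul_apply, smul_eq_mul,
          omw_apply]
        exact ident h1 h2 h3 h4 hK hc hw hw₁ u) v (by
        intro i
        have h9 := hv i
        rw [hzu, h4 ι K hK w₁ hw₁ t ht u] at h9
        exact h9)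
    rw [AlternatingMap.smul_apply, smul_eq_mul] at h8
    rw [h8, h6, h7]
    field_simp
  have htan : ∀ z ∈ K.C, z ≠ 0 → ∀ t : ℂ, t ≠ 0 →
      tangent (ideal K.C) (t • z) = tangent (ideal K.C) z := by
    intro z hz h0 t ht
    obtain ⟨w, hw, s, u, hs, rfl⟩ := hQ z hz h0
    have h6 : t • w (s • K.pt u) = w ((t * s) • K.pt u) := by
      rw [← map_smul, smul_smul]
    rw [h6, h4 ι K hK w hw (t * s) (mul_ne_zero ht hs) u, h4 ι K hK w hw s hs u]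
  have main : ∃ Θ : (ι → ℂ) → ((ι → ℂ) [⋀^Fin 7]→ₗ[ℂ] ℂ),
    (∀ z, On (ideal K.C) z → ∃ v : Fin 7 → ι → ℂ,
      (∀ i, v i ∈ tangent (ideal K.C) z) ∧ Θ z v ≠ 0) ∧
    (∀ z, On (ideal K.C) z → ∀ t : ℂ, t ≠ 0 → ∀ v : Fin 7 → ι → ℂ,
      (∀ i, v i ∈ tangent (ideal K.C) z) →
      Θ (t • z) (fun i => t • v i) = t ^ (3 : ℤ) * Θ z v) ∧
    ∀ z₀, On (ideal K.C) z₀ → ∃ (a : MvPolynomial ι ℂ) (b : (Fin 7 → ι) → MvPolynomial ι ℂ),
      eval z₀ a ≠ 0 ∧ ∀ z, On (ideal K.C) z → ∀ v : Fin 7 → ι → ℂ,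
        (∀ i, v i ∈ tangent (ideal K.C) z) →
        eval z a * Θ z v = ∑ σ : Fin 7 → ι, eval z (b σ) * ∏ i, v i (σ i) := by
    refine ⟨Θ, ?_, ?_, ?_⟩
    · intro z hz
      obtain ⟨hzC, h0⟩ := (hon z).1 hz
      obtain ⟨w, hw, t, u, ht, hzu⟩ := hQ z hzC h0
      have hv : ∀ i, w (frame K.φ u i) ∈ tangent (ideal K.C) z := by
        intro i
        rw [hzu, h4 ι K hK w hw t ht u]
        exact Submodule.subset_span ⟨i, rfl⟩
      refine ⟨fun i => w (frame K.φ u i), hv, ?_⟩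
      intro h6
      have h7 := key z hzC h0 w hw _ hv
      rw [h6, mul_zero, omw_frame, (h2 ι K hK u).1, mul_one] at h7
      exact (hc w hw).1 h7.symm
    · intro z hz t ht v hv
      obtain ⟨hzC, h0⟩ := (hon z).1 hz
      obtain ⟨w, hw, s, u, hs, hzu⟩ := hQ z hzC h0
      have hv' : ∀ i, t • v i ∈ tangent (ideal K.C) (t • z) := by
        intro i
        rw [htan z hzC h0 t ht]
        exact Submodule.smul_mem _ _ (hv i)
      have h6 := key z hzC h0 w hw v hv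
      have h7 := key (t • z) (cone hK hzC t) (smul_ne_zero ht h0) w hw _ hv'
      have h8 : omw K w (fun i => t • v i) = t ^ 7 * omw K w v := alt_smul _ _ _
      have h10 : K.L 0 (w.symm z) = s := by
        rw [hzu, LinearEquiv.symm_apply_apply, Cells.L_zero_smul hK]
      rw [map_smul, map_smul, smul_eq_mul, h10, h8] at h7
      rw [h10] at h6
      have h11 : (t * s) ^ 4 * Θ (t • z) (fun i => t • v i) = (t * s) ^ 4 * (t ^ 3 * Θ z v) := by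
        rw [h7]
        linear_combination (-(t ^ 7)) * h6
      have h12 := mul_left_cancel₀ (pow_ne_zero 4 (mul_ne_zero ht hs)) h11
      rw [h12]
      norm_cast
    · intro z₀ hz₀
      obtain ⟨hzC₀, h00⟩ := (hon z₀).1 hz₀
      obtain ⟨w, hw, s, u, hs, hzu⟩ := hQ z₀ hzC₀ h00
      refine ⟨form (K.L 0 ∘ₗ w.symm.toLinearMap) ^ 4,
        fun σ => C (c w * omw K w (fun i => Pi.single (σ i) 1)), ?_, ?_⟩
      · rw [map_pow, eval_form]
        apply pow_ne_zero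
        show K.L 0 (w.symm z₀) ≠ 0
        rw [hzu, LinearEquiv.symm_apply_apply, Cells.L_zero_smul hK]
        exact hs
      · intro z hz v hv
        obtain ⟨hzC, h0⟩ := (hon z).1 hz
        rw [map_pow, eval_form]
        show K.L 0 (w.symm z) ^ 4 * Θ z v = _
        rw [key z hzC h0 w hw v hv]
        have h7 := alt_expand (omw K w) v
        rw [h7, Finset.mul_sum]
        refine Finset.sum_congr rfl fun σ _ => ?_
        rw [eval_C]
        ring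

  exact main

end Pool.Agent.T2h78.AP
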