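import Pool.Agent.T2h78.AP.Com

set_option autoImplicit false

open MvPolynomial

namespace Pool.Agent.T2h78.AP

open Pool.Agent.T2h19.AP

/-- the polynomial `F(t φ(u))` -/
noncomputable def tpoly {ι : Type} (φ : ι → MvPolynomial (Fin 6) ℂ) (F : MvPolynomial ι ℂ) :
    MvPolynomial (Option (Fin 6)) ℂ :=
  aeval (fun i => X none * rename some (φ i)) F

theorem eval_tpoly {ι : Type} (φ : ι → MvPolynomial (Fin 6) ℂ) (F : MvPolynomial ι ℂ)
    (p : Option (Fin 6) → ℂ) :
    eval p (tpoly φ F) = eval (p none • ev φ (fun j => p (some j))) F := by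
  unfold tpoly
  rw [aeval_def, ← coe_eval₂Hom, ← RingHom.comp_apply]
  have : (eval p).comp (eval₂Hom (algebraMap ℂ (MvPolynomial (Option (Fin 6)) ℂ))
      (fun i => X none * rename some (φ i))) =
      (eval (p none • ev φ (fun j => p (some j)))) := by
    apply MvPolynomial.ringHom_ext
    · intro r
      simp [algebraMap_eq]
    · intro i
      simp [ev, eval_rename]
      left
      rfl
  rw [this]

theorem var_ (h1 : S_DEN) : S_VAR := by
  intro ι _ _ K hK
  have hon : ∀ z, On (ideal K.C) z ↔ z ∈ K.C ∧ z ≠ 0 := by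
    intro z
    constructor
    · rintro ⟨hz, hF⟩
      refine ⟨?_, hz⟩
      obtain ⟨S, hS⟩ := hK.closed
      rw [hS]
      intro F hFS
      apply hF
      intro z' hz'
      rw [hS] at hz'
      exact hz' F hFS
    · rintro ⟨hz, h0⟩
      exact ⟨h0, fun F hF => hF z hz⟩
  refine ⟨⟨?_, ?_, ?_⟩, hon⟩
  · constructor
    · rw [Ideal.ne_top_iff_one]
      intro h
      have := h (K.pt 0) (Cells.pt_mem hK 0)
      simp at this
    · intro F G hFG
      have hprod : tpoly K.φ F * tpoly K.φ G = 0 := by
        apply MvPolynomial.funext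
        intro p
        rw [map_mul, eval_tpoly, eval_tpoly, ← map_mul, map_zero]
        exact hFG _ (hK.smul_mem _ _)
      rcases mul_eq_zero.1 hprod with h | h
      · left
        intro z hz
        refine h1 ι K hK F ?_ z hz
        intro t u
        have h2 := eval_tpoly K.φ F (fun o => o.elim t u)
        rw [h, map_zero] at h2
        exact h2.symm
      · right
        intro z hz
        refine h1 ι K hK G ?_ z hz
        intro t u
        have h2 := eval_tpoly K.φ G (fun o => o.elim t u)
        rw [h, map_zero] at h2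
        exact h2.symm
  · intro F hF n z hz
    exact comp_eval (fun c => hF _ (cone hK hz c)) n
  · exact ⟨K.pt 0, (hon _).2 ⟨Cells.pt_mem hK 0, Cells.pt_ne hK 0⟩⟩

end Pool.Agent.T2h78.AP
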