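import Pool.Agent.T2h78.AP.Com

set_option autoImplicit false

open MvPolynomial

namespace Pool.Agent.T2h78.AP

open Pool.Agent.T2h19.AP

variable {ι : Type} [Fintype ι] [DecidableEq ι]

/-- homogenization with respect to the cell of `w` -/
theorem homcell (h1 : S_HOM) (K : Cells ι) (w : (ι → ℂ) ≃ₗ[ℂ] (ι → ℂ))
    (g : MvPolynomial (Fin 6) ℂ) : ∃ M₀ : ℕ, ∀ M, M₀ ≤ M → ∃ G : MvPolynomial ι ℂ,
      G.IsHomogeneous M ∧ ∀ z, K.L 0 (w.symm z) ≠ 0 →
        eval z G = K.L 0 (w.symm z) ^ M *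
          eval (fun j => K.L j.succ (w.symm z) / K.L 0 (w.symm z)) g := by
  obtain ⟨M₀, hM₀⟩ := h1 ι g
  refine ⟨M₀, fun M hM => ?_⟩
  obtain ⟨G, hG, hh⟩ := hM₀ M hM (form (K.L 0 ∘ₗ w.symm.toLinearMap))
    (fun j => form (K.L j.succ ∘ₗ w.symm.toLinearMap))
  refine ⟨G, hh (form_hom _) (fun j => form_hom _), fun z hz => ?_⟩
  simp only [eval_form] at hG
  exact hG z hz

omit [Fintype ι] [DecidableEq ι] in
theorem comp_hom {G : MvPolynomial ι ℂ} {M : ℕ} (hG : G.IsHomogeneous M) (n : ℕ) :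
    homogeneousComponent n G = if n = M then G else 0 :=
  homogeneousComponent_of_mem ((mem_homogeneousSubmodule M G).2 hG)

/-- a point of the basic cell which is in the cell of `w` -/
theorem rho_pt {K : Cells ι} (hK : K.Cov) {w : (ι → ℂ) ≃ₗ[ℂ] (ι → ℂ)} (hw : w ∈ K.W) :
    ∃ u, K.L 0 (w.symm (K.pt u)) ≠ 0 := by
  have h : ∃ u1, K.L 0 (w (K.pt u1)) ≠ 0 := by
    by_contra hc
    push Not at hc
    apply hK.q_ne w hw
    apply MvPolynomial.funext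
    intro u
    rw [eval_qpoly, map_zero]
    exact hc u
  obtain ⟨u1, hu1⟩ := h
  have hz : w (K.pt u1) ∈ K.C := (hK.mem_iff w hw _).2 (Cells.pt_mem hK u1)
  obtain ⟨c, u2, hc, h2⟩ : ∃ (c : ℂ) (u2 : Fin 6 → ℂ), c ≠ 0 ∧ w (K.pt u1) = c • K.pt u2 :=
    ⟨_, _, hu1, Cells.eq_smul hK hz hu1⟩
  refine ⟨u2, ?_⟩
  have h3 : w.symm (K.pt u2) = c⁻¹ • K.pt u1 := by
    rw [LinearEquiv.symm_apply_eq, map_smul, h2, smul_smul, inv_mul_cancel₀ hc, one_smul]
  rw [h3, map_smul, Cells.L_zero_pt hK, smul_eq_mul, mul_one]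
  exact inv_ne_zero hc

/-- the points of the basic cell in the cell of `w` -/
theorem pt_eq {K : Cells ι} (hK : K.Cov) {w : (ι → ℂ) ≃ₗ[ℂ] (ι → ℂ)} (hw : w ∈ K.W)
    (u : Fin 6 → ℂ) (hu : K.L 0 (w.symm (K.pt u)) ≠ 0) :
    K.pt u = w (K.L 0 (w.symm (K.pt u)) •
      K.pt (fun j => K.L j.succ (w.symm (K.pt u)) / K.L 0 (w.symm (K.pt u)))) := by
  have h1 : w.symm (K.pt u) ∈ K.C := Cells.symm_mem hK hw (Cells.pt_mem hK u)
  rw [← Cells.eq_smul hK h1 hu, LinearEquiv.apply_symm_apply]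

theorem zra_ (h1 : S_HOM) (h2 : S_VAR) : S_ZRA := by
  intro ι _ _ K hK hN P f d s g hIP hP hR hs z hz
  have hzC : z ∈ K.C := (((h2 ι K hK).2 z).1 ⟨hz.1, fun F hF => hz.2 F (hIP hF)⟩).1
  obtain ⟨w, hw, t, u₀, ht, rfl⟩ := hK.cover z hzC hz.1
  have hs1 : s (w (t • ev K.φ u₀)) = t ^ d * eval u₀ (g w) := hR w hw t ht u₀
  rw [hs1]
  obtain ⟨M₀, hM₀⟩ := homcell h1 K w (g w)
  set M := M₀ + d.toNat with hM
  obtain ⟨G, hGh, hG⟩ := hM₀ M (by omega)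
  have hMd : ∃ m : ℕ, (M : ℤ) = m + d := ⟨((M : ℤ) - d).toNat, by omega⟩
  obtain ⟨m, hm⟩ := hMd
  set ρ : MvPolynomial (Fin 6) ℂ := pull K.φ (form (K.L 0 ∘ₗ w.symm.toLinearMap)) with hρ
  have hρe : ∀ u, eval u ρ = K.L 0 (w.symm (K.pt u)) := by
    intro u
    rw [hρ, eval_pull, eval_form]
    rfl
  have hρ0 : ρ ≠ 0 := by
    intro h
    obtain ⟨u, hu⟩ := rho_pt hK hw
    rw [← hρe, h, map_zero] at hu
    exact hu rfl
  have hid : ρ * pull K.φ G = ρ * (ρ ^ m * f) := by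
    apply MvPolynomial.funext
    intro u
    have e1 : eval u (pull K.φ G) = eval (K.pt u) G := eval_pull _ _ _
    rw [map_mul, map_mul, map_mul, map_pow, hρe, e1]
    by_cases hu : K.L 0 (w.symm (K.pt u)) = 0
    · rw [hu]; ring
    · congr 1
      have h3 := hG (K.pt u) hu
      rw [h3]
      have h5 := hR w hw _ hu
        (fun j => K.L j.succ (w.symm (K.pt u)) / K.L 0 (w.symm (K.pt u)))
      rw [← pt_eq hK hw u hu, hs u] at h5
      rw [h5, ← mul_assoc]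
      congr 1
      rw [← zpow_natCast, ← zpow_natCast, hm, zpow_add₀ hu]
  have hdiv : f ∣ pull K.φ G := by
    rw [mul_left_cancel₀ hρ0 hid]
    exact Dvd.intro_left _ rfl
  have hGP : G ∈ P := by
    rw [hP]
    intro n
    rw [comp_hom hGh]
    by_cases hn : n = M
    · rw [if_pos hn]; exact hdiv
    · rw [if_neg hn]
      unfold pull
      rw [map_zero]
      exact dvd_zero f
  have h6 := hz.2 G hGP
  have h7 : w.symm (w (t • ev K.φ u₀)) = t • K.pt u₀ := by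
    rw [LinearEquiv.symm_apply_apply]; rfl
  have h8 : K.L 0 (t • K.pt u₀) = t := Cells.L_zero_smul hK t u₀
  have h9 : (fun j : Fin 6 => K.L j.succ (t • K.pt u₀) / K.L 0 (t • K.pt u₀)) = u₀ := by
    funext j
    rw [h8, map_smul, Cells.L_succ_pt hK, smul_eq_mul, mul_div_cancel_left₀ _ ht]
  rw [hG _ (by rw [h7, h8]; exact ht), h7, h9, h8] at h6
  rcases mul_eq_zero.1 h6 with h10 | h10
  · exact absurd h10 (pow_ne_zero _ ht)
  · rw [h10, mul_zero]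

end Pool.Agent.T2h78.AP
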