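import Pool.Agent.T2h78.AP.Zra

set_option autoImplicit false

open MvPolynomial

namespace Pool.Agent.T2h78.AP

open Pool.Agent.T2h19.AP

variable {ι : Type} [Fintype ι] [DecidableEq ι]

omit [Fintype ι] [DecidableEq ι] in
theorem reg_mul {K : Cells ι} {d d' : ℤ} {s s' : (ι → ℂ) → ℂ}
    {g g' : ((ι → ℂ) ≃ₗ[ℂ] (ι → ℂ)) → MvPolynomial (Fin 6) ℂ} (h : K.Reg d s g)
    (h' : K.Reg d' s' g') : K.Reg (d + d') (fun z => s z * s' z) (fun w => g w * g' w) := by
  intro w hw t ht u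
  show s _ * s' _ = _
  rw [h w hw t ht u, h' w hw t ht u, zpow_add₀ ht, map_mul]
  ring

theorem pull_subst_form (K : Cells ι) :
    pull K.φ (subst K.γ.toLinearMap (form (K.L 0))) = K.q K.γ := by
  apply MvPolynomial.funext
  intro u
  rw [eval_pull, eval_subst, eval_form, Cells.eval_q]
  rfl

theorem zrb_aux (h2 : S_FRM) (h3 : S_AGR) (h4 : S_DIV) {K : Cells ι} (hK : K.Cov) (hN : K.Nbr)
    {d : ℤ} {s : (ι → ℂ) → ℂ} {g : ((ι → ℂ) ≃ₗ[ℂ] (ι → ℂ)) → MvPolynomial (Fin 6) ℂ}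
    (hR : K.Reg d s g) (hq : ¬ K.q K.γ ∣ g K.γ) {H : MvPolynomial ι ℂ} {e : ℕ}
    (hH : H.IsHomogeneous e) (j : ℕ) :
    ∀ (D : ℤ) (r : (ι → ℂ) → ℂ) (gr : ((ι → ℂ) ≃ₗ[ℂ] (ι → ℂ)) → MvPolynomial (Fin 6) ℂ),
      K.Reg D r gr → d + D = ((j + e : ℕ) : ℤ) →
      (∀ z ∈ K.C, z ≠ 0 → s z * r z = K.L 0 z ^ j * eval z H) →
      ∃ r' : (ι → ℂ) → ℂ, ∀ z ∈ K.C, z ≠ 0 → s z * r' z = eval z H := by
  have hform : ∀ j : ℕ, (form (K.L 0) ^ j * H).IsHomogeneous (j + e) := by
    intro j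
    have := ((form_hom (K.L 0)).pow j).mul hH
    rwa [one_mul] at this
  have hev : ∀ (j : ℕ) z, eval z (form (K.L 0) ^ j * H) = K.L 0 z ^ j * eval z H := by
    intro j z
    rw [map_mul, map_pow, eval_form]
  induction j with
  | zero =>
    intro D r gr _ _ h
    refine ⟨r, fun z hz h0 => ?_⟩
    rw [h z hz h0, pow_zero, one_mul]
  | succ j ih =>
    intro D r gr hr hD h
    have hA := reg_mul hR hr
    have hB := h2 ι K _ _ (hform (j + 1))
    rw [hD] at hA
    have hAG := h3 ι K hK _ _ _ _ _ hA hB (by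
      intro z hz hL
      have h0 : z ≠ 0 := by
        intro h0; apply hL; rw [h0, map_zero]
      show s z * r z = eval z _
      rw [h z hz h0, hev])
    have h5 := hAG.2 K.γ hN.γ_mem
    have h6 : pull K.φ (subst K.γ.toLinearMap (form (K.L 0) ^ (j + 1) * H)) =
        K.q K.γ * (K.q K.γ ^ j * pull K.φ (subst K.γ.toLinearMap H)) := by
      rw [← pull_subst_form]
      unfold pull subst
      rw [map_mul, map_mul, map_pow, map_pow]
      ring
    have h7 : K.q K.γ ∣ g K.γ * gr K.γ := by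
      have h8 : g K.γ * gr K.γ = pull K.φ (subst K.γ.toLinearMap (form (K.L 0) ^ (j + 1) * H)) :=
        h5
      rw [h8, h6]
      exact dvd_mul_right _ _
    have hp : Prime (K.q K.γ) := hN.prime
    have h9 : K.q K.γ ∣ gr K.γ := (hp.dvd_or_dvd h7).resolve_left hq
    obtain ⟨r', gr', hr', -, hrr⟩ := h4 ι K hK hN D r gr hr h9
    have hD' : d + (D - 1) = ((j + e : ℕ) : ℤ) := by
      push_cast at hD ⊢
      linarith
    refine ih (D - 1) r' gr' hr' hD' ?_
    have hA' := reg_mul hR hr'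
    have hB' := h2 ι K _ _ (hform j)
    rw [hD'] at hA'
    have hAG' := h3 ι K hK _ _ _ _ _ hA' hB' (by
      intro z hz hL
      have h0 : z ≠ 0 := by
        intro h0; apply hL; rw [h0, map_zero]
      show s z * r' z = eval z _
      rw [hev]
      have h10 := h z hz h0
      rw [hrr z hz h0] at h10
      have h11 : K.L 0 z * (s z * r' z) = K.L 0 z * (K.L 0 z ^ j * eval z H) := by
        rw [pow_succ] at h10
        linear_combination h10
      exact mul_left_cancel₀ hL h11)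
    intro z hz h0
    have h12 := hAG'.1 z hz h0
    have h13 : s z * r' z = eval z (form (K.L 0) ^ j * H) := h12
    rw [h13, hev]

theorem zrb_ (h1 : S_HOM) (h2 : S_FRM) (h3 : S_AGR) (h4 : S_DIV) : S_ZRB := by
  intro ι _ _ K hK hN P f d s g hP hR hq hs z hz h0 hsz
  refine ⟨h0, fun F hF => ?_⟩
  rw [← sum_homogeneousComponent F, map_sum]
  refine Finset.sum_eq_zero fun e _ => ?_
  set H := homogeneousComponent e F with hHdef
  have hH : H.IsHomogeneous e := homogeneousComponent_isHomogeneous e F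
  obtain ⟨h, hh⟩ := (hP F).1 hF e
  rw [← hHdef] at hh
  obtain ⟨N₀, hN₀⟩ := homcell h1 K (LinearEquiv.refl ℂ (ι → ℂ)) h
  set N := N₀ + e + (-d).toNat with hNdef
  obtain ⟨r0, hr0h, hr0⟩ := hN₀ N (by omega)
  have hr0u : ∀ u, eval (K.pt u) r0 = eval u h := by
    intro u
    have h5 : (LinearEquiv.refl ℂ (ι → ℂ)).symm (K.pt u) = K.pt u := rfl
    have h6 := hr0 (K.pt u) (by rw [h5, Cells.L_zero_pt hK]; exact one_ne_zero)
    rw [h6, h5, Cells.L_zero_pt hK, one_pow, one_mul]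
    congr 2
    funext j
    rw [Cells.L_succ_pt hK, div_one]
  obtain ⟨j, hj⟩ : ∃ j : ℕ, d + (N : ℤ) = ((j + e : ℕ) : ℤ) :=
    ⟨(d + N - e).toNat, by push_cast; omega⟩
  have hform : (form (K.L 0) ^ j * H).IsHomogeneous (j + e) := by
    have := ((form_hom (K.L 0)).pow j).mul hH
    rwa [one_mul] at this
  have hev : ∀ z, eval z (form (K.L 0) ^ j * H) = K.L 0 z ^ j * eval z H := by
    intro z
    rw [map_mul, map_pow, eval_form]
  have hr := h2 ι K r0 N hr0h
  have hA := reg_mul hR hr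
  have hB := h2 ι K _ _ hform
  rw [hj] at hA
  have hs1 : ∀ (t : ℂ) (u : Fin 6 → ℂ), t ≠ 0 → s (t • K.pt u) = t ^ d * eval u f := by
    intro t u ht
    have h5 := hR _ hN.one_mem t ht u
    have h6 := hR _ hN.one_mem 1 one_ne_zero u
    have h7 : (LinearEquiv.refl ℂ (ι → ℂ)) ((1 : ℂ) • K.pt u) = K.pt u := by
      rw [LinearEquiv.refl_apply, one_smul]
    rw [h7, one_zpow, one_mul, hs u] at h6
    rw [LinearEquiv.refl_apply] at h5
    rw [h5, h6]
  have hAG := h3 ι K hK _ _ _ _ _ hA hB (by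
    intro z hz hL
    show s z * eval z r0 = eval z _
    rw [hev]
    obtain ⟨t, u, ht, rfl⟩ : ∃ (t : ℂ) (u : Fin 6 → ℂ), t ≠ 0 ∧ z = t • K.pt u :=
      ⟨_, _, hL, Cells.eq_smul hK hz hL⟩
    rw [hs1 t u ht, eval_smul_hom hr0h, eval_smul_hom hH, Cells.L_zero_smul hK, hr0u]
    have h8 : eval (K.pt u) H = eval u f * eval u h := by
      have h9 : eval u (pull K.φ H) = eval (K.pt u) H := eval_pull _ _ _
      rw [← h9, hh, map_mul]
    rw [h8]
    have h10 : t ^ d * t ^ N = t ^ j * t ^ e := by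
      rw [← zpow_natCast, ← zpow_add₀ ht, hj, ← pow_add, zpow_natCast]
    linear_combination (eval u f * eval u h) * h10)
  obtain ⟨r', hr'⟩ := zrb_aux h2 h3 h4 hK hN hR hq hH j N (fun z => eval z r0) _ hr hj (by
    intro z hz h0
    have h11 := hAG.1 z hz h0
    have h12 : s z * eval z r0 = eval z (form (K.L 0) ^ j * H) := h11
    rw [h12, hev])
  rw [← hr' z hz h0, hsz, zero_mul]

end Pool.Agent.T2h78.AP
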