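import Pool.Agent.T2h19.AP.Stm

/-!
# Common lemmas for the tasks of project AP (helper78)
-/

set_option autoImplicit false

open MvPolynomial

namespace Pool.Agent.T2h78.AP

open Pool.Agent.T2h19.AP

variable {ι : Type} [Fintype ι] [DecidableEq ι]

omit [DecidableEq ι] in
theorem eval_smul_hom {F : MvPolynomial ι ℂ} {n : ℕ} (hF : F.IsHomogeneous n) (c : ℂ)
    (z : ι → ℂ) : eval (c • z) F = c ^ n * eval z F := by
  rw [eval_eq', eval_eq', Finset.mul_sum]
  refine Finset.sum_congr rfl fun d hd => ?_
  have h1 : ∑ i, d i = n := by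
    have h2 := hF (mem_support_iff.1 hd)
    rw [← Finsupp.degree_eq_sum, Finsupp.degree_eq_weight_one]
    exact h2
  have h3 : ∏ i, (c • z) i ^ d i = c ^ n * ∏ i, z i ^ d i := by
    simp only [Pi.smul_apply, smul_eq_mul, mul_pow, Finset.prod_mul_distrib]
    rw [Finset.prod_pow_eq_pow_sum, h1]
  rw [h3]
  ring

omit [DecidableEq ι] in
theorem comp_eval {F : MvPolynomial ι ℂ} {z : ι → ℂ} (h : ∀ c : ℂ, eval (c • z) F = 0) (n : ℕ) :
    eval z (homogeneousComponent n F) = 0 := by
  set p : Polynomial ℂ := ∑ i ∈ Finset.range (F.totalDegree + 1),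
    Polynomial.C (eval z (homogeneousComponent i F)) * Polynomial.X ^ i with hp
  have h0 : p = 0 := by
    apply Polynomial.funext
    intro c
    have h1 := h c
    rw [← sum_homogeneousComponent F, map_sum] at h1
    rw [hp, Polynomial.eval_finsetSum, Polynomial.eval_zero]
    rw [← h1]
    refine Finset.sum_congr rfl fun i _ => ?_
    rw [eval_smul_hom (homogeneousComponent_isHomogeneous i F)]
    rw [Polynomial.eval_mul, Polynomial.eval_C, Polynomial.eval_pow, Polynomial.eval_X]
    ring
  by_cases hn : n ∈ Finset.range (F.totalDegree + 1)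
  · have h1 : p.coeff n = eval z (homogeneousComponent n F) := by
      rw [hp, Polynomial.finsetSum_coeff]
      rw [Finset.sum_eq_single n]
      · simp
      · intro b _ hb
        rw [Polynomial.coeff_C_mul, Polynomial.coeff_X_pow, if_neg (Ne.symm hb), mul_zero]
      · intro h; exact absurd hn h
    rw [← h1, h0, Polynomial.coeff_zero]
  · rw [homogeneousComponent_eq_zero, map_zero]
    rw [Finset.mem_range] at hn
    omega

/-- `C` is a cone. -/
theorem cone {K : Cells ι} (hK : K.Cov) {z : ι → ℂ} (hz : z ∈ K.C) (c : ℂ) : c • z ∈ K.C := by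
  by_cases h0 : z = 0
  · rw [h0, smul_zero, ← h0]; exact hz
  · obtain ⟨w, hw, t, u, ht, rfl⟩ := hK.cover z hz h0
    have h1 : c • w (t • ev K.φ u) = w ((c * t) • K.pt u) := by
      rw [← map_smul, smul_smul]; rfl
    rw [h1]
    exact Cells.cell_mem hK hw _ _

end Pool.Agent.T2h78.AP
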